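import Pool.Agent.H56.GV.LIPG

/-!
# Board `gv9`, row LIP9
-/

set_option autoImplicit false

open Finset

namespace Pool.GV7

open Pool.Agent.H23.KT Pool.Agent.H46.KW Pool.KQ Pool.GT7 Pool.GU7

theorem LIP9_thm (hCCK : CCK0Stmt) (hKU : KU9Stmt) (hDKU : DKUStmt) (hDML : DMLStmt)
    (hXSP : XSP0Stmt) (hNET : NET9Stmt) (hSIZ : SIZ0Stmt) (hXGR : XGR0Stmt) (hLMB : LMB0Stmt)
    (_hGCO : GCO0Stmt) (hGC9 : GC9Stmt) (hTRV : TRVStmt) : LIP9Stmt := by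
  intro p w r hP
  obtain ⟨h0, h1, -⟩ := hGC9 p w r hP
  exact LIPG_thm hCCK hDKU hDML hXSP hSIZ hXGR hLMB hTRV p w r h0 (hNET p w r h0 h1)
    (fun G a e C W P U hS he he1 hCB z hz => hKU G p w r a e C W P U hP hS he he1 hCB z hz)

end Pool.GV7
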