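import Pool.Agent.H7.GV.Stmts
import Pool.Agent.H2.GT.LIS

/-!
# Boards `gu8`, `gv9`, `gx10`: the local inequality with the debts, general form (after the row LIS of
helper2)
-/

set_option autoImplicit false

open Finset

namespace Pool.GV7

open Pool.Agent.H23.KT Pool.Agent.H46.KW Pool.KQ Pool.GT7 Pool.GU7

theorem LIPG_num {a lam L B kX kW kXu kWu S SX Smm T N x m η C2h Aw es TTr Pr R1 R2 Y K D r Nd γ
    Z : ℝ}
    (f0 : 0 ≤ lam) (f0' : 0 ≤ L) (fr : 0 ≤ r) (fT : 0 ≤ T) (f1 : kX ≤ kW)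
    (f2 : S ≤ SX + r * N)
    (f3 : SX ≤ kX * (x - η / 2 * m) + Smm - (1 - η / 2) * T)
    (f4 : N ≤ (2 / a) * T + R1)
    (f5 : kWu ≤ kXu + (Nd + (1 - η) * (1 + 2 * (K / a)) * (L * T)) + γ * C2h * Aw +
      D / a * (L * T) + R2)
    (f6 : L * Smm + lam * (Pr - kX) + kXu ≤ es) (f7 : kX ≤ Pr) (f7' : 0 ≤ x - η / 2 * m)
    (f8 : lam * (B - Pr) + L * (x - η / 2 * m) * Pr + Y ≤ TTr - es)
    (f9 : L * r * R1 + R2 + γ * C2h * Aw + Z ≤ Y)
    (f10 : -η / 2 + (1 - η) * (2 * (K / a)) + r * (2 / a) + D / a ≤ 0) :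
    lam * (B - kW) + L * S + Z ≤ TTr - kWu + Nd := by
  have h1 : lam * (B - kW) ≤ lam * (B - kX) := mul_le_mul_of_nonneg_left (by linarith) f0
  have h2 : kX * (x - η / 2 * m) ≤ Pr * (x - η / 2 * m) := mul_le_mul_of_nonneg_right f7 f7'
  have h3 : r * N ≤ r * ((2 / a) * T + R1) := mul_le_mul_of_nonneg_left f4 fr
  have h4 : L * S ≤ L * (Pr * (x - η / 2 * m) + Smm - (1 - η / 2) * T + r * ((2 / a) * T + R1)) :=
    mul_le_mul_of_nonneg_left (by linarith) f0'
  have h5 : (L * T) * (-η / 2 + (1 - η) * (2 * (K / a)) + r * (2 / a) + D / a) ≤ 0 :=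
    mul_nonpos_of_nonneg_of_nonpos (mul_nonneg f0' fT) f10
  have h6 : L * (Pr * (x - η / 2 * m) + Smm - (1 - η / 2) * T + r * ((2 / a) * T + R1)) =
      L * (x - η / 2 * m) * Pr + L * Smm - (L * T) * (1 - η / 2) + (L * T) * (r * (2 / a)) +
        L * r * R1 := by ring
  have h7 : (1 - η) * (1 + 2 * (K / a)) * (L * T) = (L * T) * (1 - η) +
      (L * T) * ((1 - η) * (2 * (K / a))) := by ring
  have h8 : D / a * (L * T) = (L * T) * (D / a) := by ring
  have h9 : (L * T) * (-η / 2 + (1 - η) * (2 * (K / a)) + r * (2 / a) + D / a) =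
      (L * T) * (1 - η) - (L * T) * (1 - η / 2) + (L * T) * ((1 - η) * (2 * (K / a))) +
        (L * T) * (r * (2 / a)) + (L * T) * (D / a) := by ring
  have h10 : lam * (B - kX) = lam * (B - Pr) + lam * (Pr - kX) := by ring
  rw [h6] at h4
  rw [h7, h8] at f5
  rw [h9] at h5
  linarith

/-- The bound for the cliques with `w` vertices. -/
theorem LIPG_kw {A Lm P3 Aw kc T Q γ : ℝ} (h1 : kc * P3 ≤ Aw * (γ * P3 + Q * T))
    (h2 : A * Aw ≤ 2 * (Lm * P3)) (h3 : 0 < A) (h5 : 0 < P3) (h6 : 0 ≤ T) (hQ : 0 ≤ Q) :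
    kc ≤ γ * Aw + 2 * Q / A * (Lm * T) := by
  have e1 : Aw ≤ 2 / A * (Lm * P3) := by
    rw [div_mul_eq_mul_div, le_div_iff₀ h3]
    linarith
  have e2 : Aw * (Q * T) ≤ (2 / A * (Lm * P3)) * (Q * T) :=
    mul_le_mul_of_nonneg_right e1 (mul_nonneg hQ h6)
  have e3 : kc * P3 ≤ (γ * Aw + 2 * Q / A * (Lm * T)) * P3 := by
    calc kc * P3 ≤ Aw * (γ * P3) + Aw * (Q * T) := by linarith [h1]
      _ ≤ Aw * (γ * P3) + (2 / A * (Lm * P3)) * (Q * T) := by linarith
      _ = _ := by ring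
  exact le_of_mul_le_mul_right e3 h5

/-- The final form of the local inequality. -/
def LIPc (p w r : ℕ) : Prop :=
  ∃ e₀ : ℝ, 0 < e₀ ∧ ∀ e : ℝ, 0 < e → e ≤ e₀ → ∀ C : ℝ, 0 < C →
    ∃ a₀ : ℕ, ∀ a ≥ a₀, ∀ {V : Type} [DecidableEq V] (G : SimpleGraph V) (W : Finset V)
    (P : Fin (p + 3) → Finset V) (U : Finset V), Str G p a e C W P U → CB G W (p + 3) →
    W.card ≤ (p + 3) * a + r →
    Ph G p w r a W + (2 * ((p + 1).choose (w + 1) : ℝ) - 1) * (U.card.choose 2 : ℝ) *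
      (a : ℝ) ^ w ≤ df G p w r a W + ∑ z ∈ U, nd G p w r a (un P) z

/-- The conclusion of the rows NET. -/
def NETc (p w r : ℕ) : Prop :=
  ∃ a₀ : ℕ, ∀ a ≥ a₀,
    ∀ {V : Type} [DecidableEq V] (G : SimpleGraph V) (e : ℝ)
    (P : Fin (p + 3) → Finset V), 0 ≤ e → e ≤ e1 p / 2 → Par G P →
    (∀ i, (1 - e) * a ≤ ((P i).card : ℝ) ∧ ((P i).card : ℝ) ≤ (1 + e) * a) →
    (∀ i, ∀ u ∈ P i, ∀ k, k ≠ i → ((non G (P k) u).card : ℝ) ≤ e1 p * a) →
    Lm p w r a * ∑ L ∈ clq G (un P) (p + 3), mm G p r (un P) L +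
      lam p w r a * ((∏ i, ((P i).card : ℝ)) - kc G (un P) (p + 3)) + kc G (un P) (w + 2) ≤
      es (sz P) (w + 2)

/-- The conclusion of the rows KU. -/
def KUc (p w r : ℕ) : Prop :=
  ∀ {V : Type} [DecidableEq V] (G : SimpleGraph V) (a : ℕ) (e C : ℝ) (W : Finset V)
    (P : Fin (p + 3) → Finset V) (U : Finset V), Str G p a e C W P U → 0 ≤ e →
    e ≤ e1 p / 2 → CB G W (p + 3) → ∀ z ∈ U,
    (kc G (nb G (un P) z) w : ℝ) * (a : ℝ) ^ (p + 3) ≤
      (a : ℝ) ^ w * (((p + 1).choose w + 1 / 4) * (a : ℝ) ^ (p + 3) +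
        2 ^ (p + 4) * ((p : ℝ) + 3) * TZ G p r (un P) z)

/-- The local inequality with the debts. -/
theorem LIPG_thm (hCCK : CCK0Stmt) (hDKU : DKUStmt) (hDML : DMLStmt) (hXSP : XSP0Stmt)
    (hSIZ : SIZ0Stmt) (hXGR : XGR0Stmt) (hLMB : LMB0Stmt) (hTRV : TRVStmt) (p w r : ℕ)
    (hP : Pr0 p w r) (hNT : NETc p w r) (hKU2 : KUc p w r) : LIPc p w r := by
  classical
  have hcp : 1 ≤ (p + 2).choose (w + 1) := Nat.choose_pos (by have := hP.wp; omega)
  have hcp' : (1 : ℝ) ≤ ((p + 2).choose (w + 1) : ℝ) := by exact_mod_cast hcp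
  have he10 : 0 < e1 p := by unfold e1; positivity
  have he11 : e1 p ≤ 1 := by
    have h1 : (1 : ℝ) ≤ 16 * ((p : ℝ) + 3) ^ 3 := by
      have h2 : (1 : ℝ) ≤ ((p : ℝ) + 3) ^ 3 := one_le_pow₀ (by linarith [Nat.cast_nonneg (α := ℝ) p])
      linarith
    unfold e1
    rw [div_le_one (by linarith)]
    exact h1
  obtain ⟨η, hη⟩ : ∃ η, η = et p w := ⟨_, rfl⟩
  have hden : (1 : ℝ) ≤ 256 * ((p : ℝ) + 3) ^ 3 * ((w : ℝ) + 2) * (p + 2).choose (w + 1) := by
    have h2 : (1 : ℝ) ≤ ((p : ℝ) + 3) ^ 3 := one_le_pow₀ (by linarith [Nat.cast_nonneg (α := ℝ) p])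
    have h3 : (1 : ℝ) ≤ (w : ℝ) + 2 := by linarith [Nat.cast_nonneg (α := ℝ) w]
    have h4 : (1 : ℝ) ≤ 256 * ((p : ℝ) + 3) ^ 3 := by linarith
    exact one_le_mul_of_one_le_of_one_le (one_le_mul_of_one_le_of_one_le h4 h3) hcp'
  have hη0 : 0 < η := by
    rw [hη]
    unfold et
    exact div_pos he10 (by linarith)
  have hη1 : η ≤ 1 := by
    rw [hη]
    unfold et
    rw [div_le_one (by linarith)]
    linarith
  obtain ⟨eX, heX0, hXG⟩ := hXGR p w r hP η hη0 (by linarith)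
  obtain ⟨K, hK0, hLM⟩ := hLMB p w r hP
  obtain ⟨a3, hSZ⟩ := hSIZ p w r hP
  obtain ⟨a4, hNT⟩ := hNT
  have he1 : e1 p / 2 ≤ 1 / 2 := by
    have h1 : (1 : ℝ) ≤ 16 * ((p : ℝ) + 3) ^ 3 := by
      have h2 : (1 : ℝ) ≤ ((p : ℝ) + 3) ^ 3 := one_le_pow₀ (by linarith [Nat.cast_nonneg (α := ℝ) p])
      linarith
    have h3 : e1 p ≤ 1 := by
      unfold e1
      rw [div_le_one (by linarith)]
      exact h1
    linarith
  refine ⟨min (e1 p / 2) eX, lt_min (by linarith) heX0, ?_⟩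
  intro e he0 hemin C hC
  have hee1 : e ≤ e1 p / 2 := hemin.trans (min_le_left _ _)
  have heX : e ≤ eX := hemin.trans (min_le_right _ _)
  -- constants
  set ch : ℕ := ⌈C⌉₊ with hch
  have hCch : C ≤ (ch : ℝ) := Nat.le_ceil C
  set Cn : ℝ := 2 ^ ch with hCn
  have hCn0 : 0 < Cn := by rw [hCn]; positivity
  set Mc : ℝ := (p : ℝ) + r + 4 with hMc
  have hMc0 : 0 < Mc := by rw [hMc]; positivity
  set c1 : ℝ := ((p + 2).choose (w + 1) : ℝ) with hc1
  have hc11 : 1 ≤ c1 := by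
    rw [hc1]
    have : 1 ≤ (p + 2).choose (w + 1) := Nat.choose_pos (by have := hP.wp; omega)
    exact_mod_cast this
  set K4 : ℝ := (r : ℝ) * Cn * Mc ^ (p + 1) * (2 * c1) with hK4
  set K6 : ℝ := Cn * Mc ^ w * 2 with hK6
  have hK40 : 0 ≤ K4 := by rw [hK4]; positivity
  have hK60 : 0 ≤ K6 := by rw [hK6]; positivity
  set Q : ℝ := 2 ^ (p + 4) * ((p : ℝ) + 3) with hQ
  have hQ0 : 0 < Q := by rw [hQ]; positivity
  set D : ℝ := (C + 1) * Q with hD
  have hD0 : 0 < D := by rw [hD]; positivity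
  set c2 : ℝ := ((p + 1).choose w : ℝ) with hc2
  set c4 : ℝ := ((p + 1).choose (w + 1) : ℝ) with hc4
  have hc124 : c1 = c2 + c4 := by
    rw [hc1, hc2, hc4]
    have : (p + 2).choose (w + 1) = (p + 1).choose w + (p + 1).choose (w + 1) :=
      Nat.choose_succ_succ (p + 1) w
    exact_mod_cast this
  have hc20 : 1 ≤ c2 := by
    rw [hc2]
    have : 1 ≤ (p + 1).choose w := Nat.choose_pos (by have := hP.wp; omega)
    exact_mod_cast this
  have hc40 : 1 ≤ c4 := by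
    rw [hc4]
    have : 1 ≤ (p + 1).choose (w + 1) := Nat.choose_pos (by have := hP.wp; omega)
    exact_mod_cast this
  obtain ⟨a2, hXG⟩ := hXG e (K4 + K6 + (c2 + 1 / 4) * (C * C) + (2 * c4 - 1) * (C * C)) he0 heX
  obtain ⟨aQ, haQ⟩ := exists_nat_ge (2 * K + 4 * (K4 + K6) + 2 / η * (2 * K + 2 * r + D) + 1)
  refine ⟨max (max 0 a2) (max (max a3 a4) (max aQ 1)), ?_⟩
  intro a ha V _ G W P U hS hCB hWc
  have ha2 : a2 ≤ a := le_trans (le_trans (le_max_right _ _) (le_max_left _ _)) ha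
  have ha3 : a3 ≤ a := le_trans (le_trans (le_trans (le_max_left _ _) (le_max_left _ _))
    (le_max_right _ _)) ha
  have ha4 : a4 ≤ a := le_trans (le_trans (le_trans (le_max_right _ _) (le_max_left _ _))
    (le_max_right _ _)) ha
  have ha5 : aQ ≤ a := le_trans (le_trans (le_trans (le_max_left _ _) (le_max_right _ _))
    (le_max_right _ _)) ha
  have ha6 : 1 ≤ a := le_trans (le_trans (le_trans (le_max_right _ _) (le_max_right _ _))
    (le_max_right _ _)) ha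
  set A : ℝ := (a : ℝ) with hA
  have hA1 : 1 ≤ A := by rw [hA]; exact_mod_cast ha6
  have hA0 : 0 < A := by linarith
  have hAQ : 2 * K + 4 * (K4 + K6) + 2 / η * (2 * K + 2 * r + D) + 1 ≤ A :=
    haQ.trans (by rw [hA]; exact_mod_cast ha5)
  have hin0 : 0 ≤ 2 / η * (2 * K + 2 * r + D) := by positivity
  have hKA : K / A ≤ 1 / 2 := by
    rw [div_le_iff₀ hA0]
    linarith
  have hKA0 : 0 ≤ K / A := by positivity
  obtain ⟨l1, l2, l3, l4, l5, -⟩ := hLM a ha6
  set L := Lm p w r a with hLdef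
  set lm := lam p w r a with hlm
  set P3 : ℝ := A ^ (p + 3) with hP3
  have hP30 : 0 < P3 := by rw [hP3]; positivity
  have hL2 : L * P3 ≤ 2 * (c1 * A ^ (w + 1)) := by
    refine l2.trans (mul_le_mul_of_nonneg_right (by linarith) (by positivity))
  have hL3 : A * A ^ w ≤ 2 * (L * P3) := by
    have e1 : A * A ^ w ≤ c1 * A ^ (w + 1) := by
      calc A * A ^ w = 1 * A ^ (w + 1) := by ring
        _ ≤ c1 * A ^ (w + 1) := mul_le_mul_of_nonneg_right hc11 (by positivity)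
    have e2 : 0 ≤ c1 * A ^ (w + 1) := by positivity
    have e3 : 1 / 2 * (c1 * A ^ (w + 1)) ≤ (1 - K / A) * (c1 * A ^ (w + 1)) :=
      mul_le_mul_of_nonneg_right (by linarith) e2
    linarith [l1]
  -- the sets
  set X := un P with hX
  have hXU : Disjoint X U := by
    rw [hX]
    unfold un
    rw [disjoint_biUnion_left]
    exact fun i _ => hS.disU i
  have hWXU : W = X ∪ U := by
    ext y
    rw [hS.cov y, mem_union, hX]
    unfold un
    rw [mem_biUnion]
    constructor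
    · rintro (h | ⟨i, h⟩)
      · exact Or.inr h
      · exact Or.inl ⟨i, mem_univ _, h⟩
    · rintro (⟨i, _, h⟩ | h)
      · exact Or.inr ⟨i, h⟩
      · exact Or.inl h
  have hcW : W.card = X.card + U.card := by
    rw [hWXU]
    exact card_union_of_disjoint hXU
  have hcX : X.card = ∑ i, (P i).card := LIS_card hS.par
  have hUC : (U.card : ℝ) ≤ C := hS.cU
  have hUch : U.card ≤ ch := by
    have : (U.card : ℝ) ≤ (ch : ℝ) := hUC.trans hCch
    exact_mod_cast this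
  have hr0 : (0 : ℝ) ≤ r := Nat.cast_nonneg r
  have hr1 : (1 : ℝ) ≤ r := by exact_mod_cast hP.r1
  have hcX1 : (X.card : ℝ) + 1 ≤ Mc * A := by
    have e1 : X.card + 1 ≤ (p + 3) * a + r + 1 := by omega
    have e2 : (X.card : ℝ) + 1 ≤ ((p : ℝ) + 3) * A + r + 1 := by
      rw [hA]; exact_mod_cast e1
    have e3 : (r : ℝ) ≤ r * A := le_mul_of_one_le_right hr0 hA1
    have e4 : Mc * A = ((p : ℝ) + 3) * A + r * A + A := by rw [hMc]; ring
    rw [e4]
    linarith
  have hcX2 : A / 2 ≤ (X.card : ℝ) + 1 := by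
    have e1 : (1 - e) * A ≤ ((P 0).card : ℝ) := hS.lo 0
    have e2 : (P 0).card ≤ X.card := card_le_card (by
      rw [hX]; unfold un
      exact subset_biUnion_of_mem P (mem_univ 0))
    have e3 : ((P 0).card : ℝ) ≤ (X.card : ℝ) := by exact_mod_cast e2
    have e4 : e ≤ 1 / 2 := hee1.trans he1
    have e5 : 1 / 2 * A ≤ (1 - e) * A := mul_le_mul_of_nonneg_right (by linarith) hA0.le
    linarith
  -- the missing vertices
  set x : ℕ := (p + 3) * a + r - X.card with hx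
  have hxX : X.card + x = (p + 3) * a + r := by omega
  have hxU : U.card ≤ x := by omega
  have hxR : ((((p + 3) * a + r : ℕ) : ℝ) - (X.card : ℝ)) = (x : ℝ) := by
    rw [← hxX]
    push_cast
    ring
  have hCCKz := hCCK G p w r a e C W P U hP hS he0.le hee1 hCB
  have hTZ0 : ∀ z ∈ U, 0 ≤ TZ G p r X z := by
    intro z hz
    have h1 := (hCCKz z hz).2.2.2
    have h2 : (0 : ℝ) ≤ (cc G p (un P) (p + 2) z : ℝ) + 1 / 2 * cc G p (un P) (p + 1) z := by
      positivity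
    exact h2.trans h1
  set T : ℝ := ∑ z ∈ U, TZ G p r X z with hT
  have hT0 : 0 ≤ T := sum_nonneg hTZ0
  have hLT0 : 0 ≤ L * T := mul_nonneg l4.le hT0
  -- f4
  have f4 : ((((clq G (X ∪ U) (p + 3)).filter (fun L => ¬ Disjoint L U)).card : ℕ) : ℝ) ≤
      2 / A * T + (if U.card ≤ 1 then 0 else (2 : ℝ) ^ U.card * ((X.card : ℝ) + 1) ^ (p + 1)) := by
    have h1 := hDML G X U p hXU
    have h2 : ∑ z ∈ U, (kc G (nb G X z) (p + 2) : ℝ) ≤ 2 / A * T := by
      rw [hT, mul_sum]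
      refine sum_le_sum fun z hz => ?_
      obtain ⟨-, -, c3, c4⟩ := hCCKz z hz
      have h3 : (0 : ℝ) ≤ 1 / 2 * (cc G p (un P) (p + 1) z : ℝ) := by positivity
      have h4 : A / 2 * (kc G (nb G X z) (p + 2) : ℝ) ≤ TZ G p r X z := by
        rw [hX, hA]
        linarith
      calc (kc G (nb G X z) (p + 2) : ℝ) = 2 / A * (A / 2 * (kc G (nb G X z) (p + 2) : ℝ)) := by
            field_simp
        _ ≤ 2 / A * TZ G p r X z := mul_le_mul_of_nonneg_left h4 (by positivity)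
    linarith
  -- f5
  have f5 : (kc G W (w + 2) : ℝ) ≤ (kc G X (w + 2) : ℝ) +
      (∑ z ∈ U, nd G p w r a X z + (1 - η) * (1 + 2 * (K / A)) * (L * T)) +
      (c2 + 1 / 4) * (((U.card : ℝ)) * ((U.card : ℝ) - 1) / 2) * A ^ w + D / A * (L * T) +
      (if U.card ≤ 2 then 0 else (2 : ℝ) ^ U.card * ((X.card : ℝ) + 1) ^ w /
        ((X.card : ℝ) + 1)) := by
    have h1 := hDKU G X U w hXU
    rw [← hWXU] at h1
    have h2 : ∑ z ∈ U, (kc G (nb G X z) (w + 1) : ℝ) ≤
        ∑ z ∈ U, nd G p w r a X z + (1 - η) * (1 + 2 * (K / A)) * (L * T) := by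
      have e1 : (1 - η) * (1 + 2 * (K / A)) * (L * T) =
          ∑ z ∈ U, (1 - η) * (1 + 2 * (K / A)) * (L * TZ G p r X z) := by
        rw [← mul_sum, ← mul_sum]
      rw [e1, ← sum_add_distrib]
      refine sum_le_sum fun z hz => ?_
      have e2 : ((kc G (nb G X z) (w + 1) : ℝ) - nd G p w r a X z) * P3 ≤
          (1 - η) * (c1 * A ^ (w + 1)) * TZ G p r X z := by
        have e3 : (kc G (nb G X z) (w + 1) : ℝ) -
            (1 - η) * (c1 * A ^ (w + 1) / P3) * TZ G p r X z ≤ nd G p w r a X z := by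
          rw [hη]
          exact le_max_right _ _
        have e4 : ((kc G (nb G X z) (w + 1) : ℝ) - nd G p w r a X z) ≤
            (1 - η) * (c1 * A ^ (w + 1) / P3) * TZ G p r X z := by linarith
        calc _ ≤ (1 - η) * (c1 * A ^ (w + 1) / P3) * TZ G p r X z * P3 :=
              mul_le_mul_of_nonneg_right e4 hP30.le
          _ = _ := by field_simp
      have e5 := LIS_fac e2 l1 hKA0 hKA hP30 (hTZ0 z hz) (by linarith) (by positivity)
      linarith
    have h3 : ∑ z ∈ U, (kc G (nb G X z) w : ℝ) ≤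
        (U.card : ℝ) * ((c2 + 1 / 4) * A ^ w) + 2 * Q / A * (L * T) := by
      have e1 : (U.card : ℝ) * ((c2 + 1 / 4) * A ^ w) + 2 * Q / A * (L * T) =
          ∑ z ∈ U, ((c2 + 1 / 4) * A ^ w + 2 * Q / A * (L * TZ G p r X z)) := by
        rw [sum_add_distrib, sum_const, nsmul_eq_mul, ← mul_sum, ← mul_sum]
      rw [e1]
      refine sum_le_sum fun z hz => ?_
      have e2 := hKU2 G a e C W P U hS he0.le hee1 hCB z hz
      exact LIPG_kw e2 hL3 hA0 hP30 (hTZ0 z hz) hQ0.le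
    have h4 : ((U.card : ℝ) - 1) / 2 * ∑ z ∈ U, (kc G (nb G X z) w : ℝ) ≤
        (c2 + 1 / 4) * (((U.card : ℝ)) * ((U.card : ℝ) - 1) / 2) * A ^ w + D / A * (L * T) := by
      rcases Nat.eq_zero_or_pos U.card with h0 | h0
      · have hU : U = ∅ := card_eq_zero.1 h0
        have : (0 : ℝ) ≤ D / A * (L * T) := mul_nonneg (by positivity) hLT0
        rw [hU] at *
        simp only [sum_empty, card_empty, Nat.cast_zero, mul_zero, zero_mul, zero_div]
        simpa using this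
      · have h5 : (1 : ℝ) ≤ (U.card : ℝ) := by exact_mod_cast h0
        have h6 : ((U.card : ℝ) - 1) / 2 * ∑ z ∈ U, (kc G (nb G X z) w : ℝ) ≤
            ((U.card : ℝ) - 1) / 2 * ((U.card : ℝ) * ((c2 + 1 / 4) * A ^ w) + 2 * Q / A * (L * T)) :=
          mul_le_mul_of_nonneg_left h3 (by linarith)
        have h7 : ((U.card : ℝ) - 1) * Q / A * (L * T) ≤ D / A * (L * T) := by
          refine mul_le_mul_of_nonneg_right ?_ hLT0
          refine div_le_div_of_nonneg_right ?_ hA0.le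
          rw [hD]
          exact mul_le_mul_of_nonneg_right (by linarith) hQ0.le
        calc _ ≤ _ := h6
          _ = (c2 + 1 / 4) * (((U.card : ℝ)) * ((U.card : ℝ) - 1) / 2) * A ^ w +
              ((U.card : ℝ) - 1) * Q / A * (L * T) := by ring
          _ ≤ _ := by linarith
    linarith
  -- f6
  have f6 := hNT a ha4 G e P he0.le hee1 hS.par (fun i => ⟨hS.lo i, hS.hi i⟩) hS.mis
  have f7 := LIS_kX hTRV hS.par
  -- f3
  set m : ℝ := max ((x : ℝ) - r) 0 with hm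
  have f3 := LIS_sum G p r (X := X) (U := U) (x := x) (η := η) (m := m)
    (fun L => min (r : ℝ) (XX G p r a W L)) (fun L => mm G p r X L) (by
      intro L hL
      have h1 := hXSP G p w r a e C η W P U hP hS he0.le hee1 hCB hWc hη0.le (by linarith) L hL
      rw [← hX, hxR] at h1
      exact h1)
  have f2 := LIS_split G hXU (p + 3) r (fun L => min (r : ℝ) (XX G p r a W L))
    (fun L => min_le_left _ _)
  rw [← hWXU] at f2 f4
  have f1 : (kc G X (p + 3) : ℝ) ≤ kc G W (p + 3) := by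
    have : X ⊆ W := by rw [hWXU]; exact subset_union_left
    exact_mod_cast kc_mono G this (p + 3)
  have hx0 : (0 : ℝ) ≤ x := Nat.cast_nonneg x
  have f7' : 0 ≤ (x : ℝ) - η / 2 * m := by
    have h1 : m ≤ x := by
      rw [hm]
      exact max_le (by linarith) hx0
    have h2 : η / 2 * m ≤ η / 2 * x := mul_le_mul_of_nonneg_left h1 (by linarith)
    have h3 : η / 2 * (x : ℝ) ≤ 1 * x := mul_le_mul_of_nonneg_right (by linarith) hx0
    linarith
  -- the remainders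
  obtain ⟨R1b, R2b⟩ := LIS_rem (A := A) (Lm := L) (W1 := A ^ (w + 1)) (P3 := P3) (c1 := c1)
    (Aw := A ^ w) (Cn := Cn) (Mc := Mc) (r := r) (K4 := K4) (K6 := K6) p w U.card X.card ch
    hA1 l4.le hr0 rfl rfl rfl hL2 hUch rfl hcX1 hcX2 rfl rfl
  have f10 : -η / 2 + (1 - η) * (2 * (K / A)) + r * (2 / A) + D / A ≤ 0 := by
    have h1 : 2 * K + 2 * r + D ≤ η / 2 * A := by
      have h2 : 2 / η * (2 * K + 2 * r + D) ≤ A := by linarith
      calc 2 * K + 2 * r + D = η / 2 * (2 / η * (2 * K + 2 * r + D)) := by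
            field_simp
        _ ≤ η / 2 * A := mul_le_mul_of_nonneg_left h2 (by positivity)
    have h3 : (1 - η) * (2 * (K / A)) ≤ 2 * (K / A) :=
      mul_le_of_le_one_left (by linarith) (by linarith)
    have h4 : (2 * K + 2 * r + D) / A ≤ η / 2 := by
      rw [div_le_iff₀ hA0]
      exact h1
    have h5 : (2 * K + 2 * r + D) / A = 2 * (K / A) + r * (2 / A) + D / A := by ring
    linarith
  have hbal : ((bal (p + 3) ((p + 3) * a + r) : ℕ) : ℝ) = A ^ (p + 3 - r) * (A + 1) ^ r := by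
    rw [LIS_bal p a r hP.rp, hA]
    push_cast
    rfl
  have hszs : ∑ i, sz P i + x = (p + 3) * a + r := by
    rw [← hxX, hcX]
    rfl
  have hAw0 : 0 ≤ A ^ w := by positivity
  have hUc : (U.card.choose 2 : ℝ) = (U.card : ℝ) * ((U.card : ℝ) - 1) / 2 :=
    Nat.cast_choose_two ℝ U.card
  have hh2 : (U.card : ℝ) * ((U.card : ℝ) - 1) / 2 ≤ (x.choose 2 : ℝ) := by
    rw [← hUc]
    exact_mod_cast Nat.choose_le_choose 2 hxU
  have hUc0 : (0 : ℝ) ≤ (U.card : ℝ) * ((U.card : ℝ) - 1) / 2 := by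
    rw [← hUc]
    positivity
  unfold Ph df
  rw [hbal, hUc]
  rcases Nat.lt_or_ge r x with hxr | hxr
  · -- more than r vertices missing
    have hmx : m = (x : ℝ) - r := by
      rw [hm]
      refine max_eq_left ?_
      have : (r : ℝ) ≤ x := by exact_mod_cast hxr.le
      linarith
    have f8 := hXG a ha2 x hxr (sz P) hszs (fun i => ⟨hS.lo i, hS.hi i⟩)
    rw [← hmx] at f8
    refine LIPG_num (a := A) (K := K) (D := D) (r := r) (η := η) (m := m) (x := x) (T := T)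
      (es := es (sz P) (w + 2))
      (Y := (K4 + K6 + (c2 + 1 / 4) * (C * C) + (2 * c4 - 1) * (C * C)) * A ^ w)
      (Pr := ∏ i, ((P i).card : ℝ)) l3.le l4.le hr0 hT0 f1 f2 f3 f4 f5 f6 f7 f7' f8 ?_ f10
    have g1 : (if U.card ≤ 1 then 0 else K4 * (A ^ w / A)) ≤ K4 * A ^ w := by
      have : A ^ w / A ≤ A ^ w := div_le_self hAw0 hA1
      split_ifs
      · positivity
      · exact mul_le_mul_of_nonneg_left this hK40
    have g2 : (if U.card ≤ 1 then 0 else K6 * (A ^ w / A)) ≤ K6 * A ^ w := by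
      have : A ^ w / A ≤ A ^ w := div_le_self hAw0 hA1
      split_ifs
      · positivity
      · exact mul_le_mul_of_nonneg_left this hK60
    have g0 : (U.card : ℝ) * ((U.card : ℝ) - 1) / 2 ≤ C * C := by
      have h1 : (0 : ℝ) ≤ U.card := Nat.cast_nonneg _
      have h2 : (U.card : ℝ) * (U.card : ℝ) ≤ C * C := mul_le_mul hUC hUC h1 hC.le
      have h3 : (U.card : ℝ) * ((U.card : ℝ) - 1) = (U.card : ℝ) * (U.card : ℝ) - U.card := by
        ring
      have h4 : 0 ≤ C * C := mul_nonneg hC.le hC.le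
      rw [h3]
      linarith
    have g3 : (c2 + 1 / 4) * ((U.card : ℝ) * ((U.card : ℝ) - 1) / 2) * A ^ w ≤
        (c2 + 1 / 4) * (C * C) * A ^ w :=
      mul_le_mul_of_nonneg_right (mul_le_mul_of_nonneg_left g0 (by linarith)) hAw0
    have g4 : (2 * c4 - 1) * ((U.card : ℝ) * ((U.card : ℝ) - 1) / 2) * A ^ w ≤
        (2 * c4 - 1) * (C * C) * A ^ w :=
      mul_le_mul_of_nonneg_right (mul_le_mul_of_nonneg_left g0 (by linarith)) hAw0
    calc _ ≤ K4 * A ^ w + K6 * A ^ w + (c2 + 1 / 4) * (C * C) * A ^ w +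
          (2 * c4 - 1) * (C * C) * A ^ w := by linarith
      _ = _ := by ring
  · have hmx : m = 0 := by
      rw [hm]
      refine max_eq_right ?_
      have : (x : ℝ) ≤ r := by exact_mod_cast hxr
      linarith
    have hsz2 : ∀ i, a ≤ 2 * sz P i ∧ sz P i ≤ 2 * a := by
      intro i
      have h1 := hS.lo i
      have h2 := hS.hi i
      have h3 : e ≤ 1 / 2 := hee1.trans he1
      unfold sz
      have h4 : 1 / 2 * A ≤ (1 - e) * A := mul_le_mul_of_nonneg_right (by linarith) hA0.le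
      have h5 : (1 + e) * A ≤ 2 * A := mul_le_mul_of_nonneg_right (by linarith) hA0.le
      constructor
      · have : (a : ℝ) ≤ 2 * ((P i).card : ℝ) := by
          rw [← hA]
          linarith
        exact_mod_cast this
      · have : ((P i).card : ℝ) ≤ 2 * (a : ℝ) := by
          rw [← hA]
          linarith
        exact_mod_cast this
    have f8 := hSZ a ha3 x hxr (sz P) hszs hsz2
    have f8' : lm * (A ^ (p + 3 - r) * (A + 1) ^ r - ∏ i, ((P i).card : ℝ)) +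
        L * ((x : ℝ) - η / 2 * m) * ∏ i, ((P i).card : ℝ) +
        (2 * c1 - c2 - 1 / 2) * (x.choose 2 : ℝ) * A ^ w ≤
        (TT (p + 3) (w + 2) a r : ℝ) - es (sz P) (w + 2) := by
      rw [hmx, mul_zero, sub_zero]
      exact f8
    refine LIPG_num (a := A) (K := K) (D := D) (r := r) (η := η) (m := m) (x := x) (T := T)
      (es := es (sz P) (w + 2)) (Y := (2 * c1 - c2 - 1 / 2) * (x.choose 2 : ℝ) * A ^ w)
      (Pr := ∏ i, ((P i).card : ℝ)) l3.le l4.le hr0 hT0 f1 f2 f3 f4 f5 f6 f7 f7' f8' ?_ f10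
    have g4 : (if U.card ≤ 1 then 0 else K4 * (A ^ w / A)) +
        (if U.card ≤ 1 then 0 else K6 * (A ^ w / A)) ≤
        1 / 4 * ((U.card : ℝ) * ((U.card : ℝ) - 1) / 2) * A ^ w := by
      split_ifs with h1
      · rw [add_zero]
        positivity
      · have h2 : 1 ≤ U.card.choose 2 := Nat.choose_pos (by omega)
        have h3 : (1 : ℝ) ≤ (U.card : ℝ) * ((U.card : ℝ) - 1) / 2 := by
          rw [← hUc]
          exact_mod_cast h2
        have h4 : (K4 + K6) * (A ^ w / A) ≤ 1 / 4 * A ^ w := by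
          rw [mul_div_assoc', div_le_iff₀ hA0]
          have h7 : (4 * (K4 + K6)) * A ^ w ≤ A * A ^ w :=
            mul_le_mul_of_nonneg_right (by linarith) hAw0
          linarith
        have h5 : 1 / 4 * A ^ w * 1 ≤ 1 / 4 * A ^ w * ((U.card : ℝ) * ((U.card : ℝ) - 1) / 2) :=
          mul_le_mul_of_nonneg_left h3 (by positivity)
        have h6 : (K4 + K6) * (A ^ w / A) = K4 * (A ^ w / A) + K6 * (A ^ w / A) := by ring
        rw [← h6]
        linarith
    have g5 : (c2 + 2 * c4 - 1 / 2) * ((U.card : ℝ) * ((U.card : ℝ) - 1) / 2) * A ^ w ≤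
        (2 * c1 - c2 - 1 / 2) * (x.choose 2 : ℝ) * A ^ w := by
      have h1 : 2 * c1 - c2 - 1 / 2 = c2 + 2 * c4 - 1 / 2 := by rw [hc124]; ring
      rw [h1]
      exact mul_le_mul_of_nonneg_right (mul_le_mul_of_nonneg_left hh2 (by linarith)) hAw0
    calc _ ≤ 1 / 4 * ((U.card : ℝ) * ((U.card : ℝ) - 1) / 2) * A ^ w +
          (c2 + 1 / 4) * ((U.card : ℝ) * ((U.card : ℝ) - 1) / 2) * A ^ w +
          (2 * c4 - 1) * ((U.card : ℝ) * ((U.card : ℝ) - 1) / 2) * A ^ w := by linarith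
      _ = (c2 + 2 * c4 - 1 / 2) * ((U.card : ℝ) * ((U.card : ℝ) - 1) / 2) * A ^ w := by ring
      _ ≤ _ := g5

end Pool.GV7
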